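import Pool.Agent.helper76.UFG.Spec

/-!
# Row ufg:KRO: Kronecker's theorem for cyclotomic rings
-/

set_option autoImplicit false

namespace Pool.Agent.UFG

open Finset NumberField nonZeroDivisors Pool.Agent.UF

/-- The element `u` with `u * b u = 1` has absolute value `1` in every embedding. -/
theorem KRO_norm {n : ℕ} {L : Type} [Field L] [NumberField L] {y : 𝓞 L} {b : 𝓞 L ≃+* 𝓞 L}
    (hn : n ≠ 0) (hC : CycN n y) (hb : IsBar y b) (u : 𝓞 L) (hu : u * b u = 1) (φ : L →+* ℂ) :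
    ‖φ (u : L)‖ = 1 := by
  obtain ⟨f, hf⟩ : ∃ f : 𝓞 L →+* ℂ, ∀ a : 𝓞 L, f a = φ (a : L) :=
    ⟨φ.comp (algebraMap (𝓞 L) L), fun a => rfl⟩
  rw [← hf]
  have hyn : f y ^ n = 1 := by
    rw [← map_pow, hC.1.pow_eq_one, map_one]
  have hy1 : ‖f y‖ = 1 := Complex.norm_eq_one_of_pow_eq_one hyn hn
  have hy0 : f y ≠ 0 := by
    intro h
    rw [h, norm_zero] at hy1
    exact zero_ne_one hy1
  have h2 : (f.comp (b : 𝓞 L →+* 𝓞 L)) y = ((starRingEnd ℂ).comp f) y := by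
    have e1 : f (b y) * f y = 1 := by rw [← map_mul, hb.1, map_one]
    have e2 : (starRingEnd ℂ) (f y) * f y = 1 := by
      rw [mul_comm, Complex.mul_conj, Complex.normSq_eq_norm_sq, hy1]
      norm_num
    exact mul_right_cancel₀ hy0 (e1.trans e2.symm)
  have h3 := hC.ext (f.comp (b : 𝓞 L →+* 𝓞 L)) ((starRingEnd ℂ).comp f) h2 u
  have h4 : f u * (starRingEnd ℂ) (f u) = 1 := by
    have e3 : (starRingEnd ℂ) (f u) = f (b u) := h3.symm
    rw [e3, ← map_mul, hu, map_one]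
  rw [Complex.mul_conj, Complex.normSq_eq_norm_sq] at h4
  have h5 : ‖f u‖ ^ 2 = 1 := by exact_mod_cast h4
  have h6 := norm_nonneg (f u)
  nlinarith

/-- **KRO**. -/
theorem KRO (hBSN : BSN_stmt) : KRO_stmt := by
  intro n L _ _ _ y b hn hev hy hb u hu
  have hNZ : NeZero n := ⟨hn⟩
  have hC : CycN n y := hBSN n L y hn hy
  obtain ⟨k, hk, huk⟩ := NumberField.Embeddings.pow_eq_one_of_norm_eq_one L ℂ (x := (u : L))
    (RingOfIntegers.isIntegral_coe u) (KRO_norm hn hC hb u hu)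
  have h5 : u ^ k = 1 := by
    apply RingOfIntegers.ext
    refine ((map_pow (algebraMap (𝓞 L) L) u k).trans huk).trans ?_
    exact (map_one (algebraMap (𝓞 L) L)).symm
  obtain ⟨U, hU⟩ : ∃ U : (𝓞 L)ˣ, (U : 𝓞 L) = u :=
    ⟨⟨u, b u, hu, by rw [mul_comm]; exact hu⟩, rfl⟩
  have hUt : U ∈ NumberField.Units.torsion L := by
    refine isOfFinOrder_iff_pow_eq_one.2 ⟨k, hk, ?_⟩
    apply Units.ext
    rw [Units.val_pow_eq_pow_val, hU, h5, Units.val_one]
  have h6 : (⟨U, hUt⟩ : NumberField.Units.torsion L) ^ NumberField.Units.torsionOrder L = 1 := by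
    exact pow_card_eq_one'
  have h7 : NumberField.Units.torsionOrder L = n := by
    rw [IsCyclotomicExtension.Rat.torsionOrder_eq (n := n) (K := L), if_pos hev]
  rw [h7] at h6
  have h8 : U ^ n = 1 := congrArg Subtype.val h6
  have h9 : u ^ n = 1 := by
    rw [← hU, ← Units.val_pow_eq_pow_val, h8, Units.val_one]
  obtain ⟨i, _, hi⟩ := hy.eq_pow_of_pow_eq_one h9
  exact ⟨i, hi.symm⟩

end Pool.Agent.UFG
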